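import Pool.Agent.H757_X15.KS.AsmK

/-!
# The 2-part of the strong conjecture of Birch and Swinnerton-Dyer for the modular curve `X_0(15)` over a
# positive proportion of the real quadratic fields of a class of positive density, with a Tate-Shafarevich
# group of unbounded 2-rank

`E` is the modular curve `X_0(15) : y² + x y + y = x³ + x² - 10 x - 10`, a curve without complex
multiplication and without a rational 3-isogeny, and `K = ℚ(√D)` is ANY real quadratic field with
`D ≡ 1` or `49` modulo `60`, that is, of odd discriminant `D` and in which `3` and `5` split; there is no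
condition on the prime factors of `D`.  Let `k` be the number of the primes that are ramified in `K` and
`z = L(E/K, 1) √D #E(K)_tors² / (Ω² ∏ c_v)`, which is zero or the order of `Ш(E/K)` according to the
conjecture.  With no hypothesis on the rank or on `Ш` we prove, for all these `K`:
* the equation of `E` is minimal at all the finite places of `K`, `L(E/K, s)` is entire, `∏ c_v = 64` and
  `#E(K)_tors` is eight times an odd number;
* if `D` has a prime factor `≡ 3` modulo `4` and a prime factor which is not a square modulo `5`, then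
  `2 ^ rank E(K) * #Ш(E/K)[2] = 2 ^ (2 k - 4)`;
* `z = u * 2 ^ (2 k - 4) * y²` with a rational number `u`, which is a unit at two, and an integer `y`,
  which is odd if and only if the elementary condition `Crit D` on quadratic residue symbols holds;
* `Crit D` holds if and only if `E(K)` is finite, `L(E/K, 1) ≠ 0`, `Ш(E/K)[2^∞] = Ш(E/K)[2]` is a vector
  space over `𝔽₂` of dimension `2 k - 4`, and its order is the 2-part of `z`: the 2-part of the conjecture.
* The proportion of the `D` of the class for which this is so is exactly `∏_{i ≥ 1} (1 - 2^{-i}) = 0.2887…`,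
  and it is the same with the condition `2 k - 4 ≥ m`, for every `m`; the class has the density
  `5 / (16 π²)` among the positive integers.

Proof.  The L-value is `L(E, 1) L(E_D, 1)`, and the 2-part of `L(E_D, 1)` is that of
`MP_4a9ea6_nt/TwoPartTwistsX15`.  What is new here is the 2-descent over `K` (all the points of order two
are rational; `Pool/Agent/H757_X15/KS`): the classes of order two that are locally trivial are given by
two divisors of `D`, one positive and `≡ 1` modulo `4` up to the factor `5`, one of any sign and a square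
modulo `5`; the exponent of `Ш(E/K)[2^∞]` is bounded by the comparison with the groups of `E` and `E_D`
over `ℚ`; the torsion points, the local groups and the Tamagawa numbers over `K` are computed.

The modules `Pool.Agent.H757_X15.KS` are the joint work of helper757 (plan, statements, assembly),
helper906, helper438, helper538, helper525, helper222, helper54, helper648, helper699, helper828, helper929,
helper625, helper370, helper361, helper301, helper204, helper511, helper22, helper322, helper857,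
helper848, helper605, helper955 and helper183.
-/

set_option autoImplicit false
set_option linter.style.haveILetI false

open NumberField IsDedekindDomain WeierstrassCurve MeasureTheory Filter Topology Module

namespace Pool.Agent.Results.MP_9ab903_nt.TwoPartX15Real

open scoped Classical

open Pool.Agent.TH841.NF.D (Sha)

/-- The curve given by the equation of `W` over the ring `R`. -/
abbrev base (W : WeierstrassCurve ℤ) (R : Type) [CommRing R] : WeierstrassCurve R :=
  W.map (Int.castRingHom R)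

/-- The number of the affine points `(x, y)` over the ring `R`. -/
noncomputable def pts (W : WeierstrassCurve ℤ) (R : Type) [CommRing R] : ℕ :=
  Nat.card {P : R × R // (base W R).toAffine.Equation P.1 P.2}

section

variable {K : Type} [Field K] [NumberField K]

/-- `a_v = N v + 1 - #W(k_v)`, the points over the residue field `k_v` counted with the point at
infinity. -/
noncomputable def a (W : WeierstrassCurve ℤ) (v : HeightOneSpectrum (𝓞 K)) : ℤ :=
  (Ideal.absNorm v.asIdeal : ℤ) - pts W (𝓞 K ⧸ v.asIdeal)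

/-- The Euler factor of `L(W/K, s)` at `v` : `(1 - a_v N v^(-s) + N v^(1 - 2 s))⁻¹` if the
discriminant is a unit at `v`, and `(1 - a_v N v^(-s))⁻¹` otherwise. -/
noncomputable def factor (W : WeierstrassCurve ℤ) (s : ℂ) (v : HeightOneSpectrum (𝓞 K)) : ℂ :=
  (1 - (a W v : ℂ) * (Ideal.absNorm v.asIdeal : ℂ) ^ (-s) +
    if ((W.Δ : ℤ) : 𝓞 K) ∈ v.asIdeal then 0 else (Ideal.absNorm v.asIdeal : ℂ) ^ (1 - 2 * s))⁻¹

/-- The equation is minimal at the finite place `v` of `K`: no change of variables over `K` that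
keeps the coefficients integral at `v` decreases the valuation of the discriminant. -/
def MinimalAt (W : WeierstrassCurve ℤ) (v : HeightOneSpectrum (𝓞 K)) : Prop :=
  ∀ C : VariableChange K, v.valuation K (C • base W K).a₁ ≤ 1 →
    v.valuation K (C • base W K).a₂ ≤ 1 → v.valuation K (C • base W K).a₃ ≤ 1 →
    v.valuation K (C • base W K).a₄ ≤ 1 → v.valuation K (C • base W K).a₆ ≤ 1 →
    v.valuation K (C • base W K).Δ ≤ v.valuation K (base W K).Δ

/-- `E⁰(K_v)`, the group of the points of `W` over the completion `K_v` with nonsingular reduction: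
the points `(x, y)` where `x` is not integral, or one of the partial derivatives of
`y² + a₁ x y + a₃ y - x³ - a₂ x² - a₄ x - a₆` is a unit at `(x, y)`, and the point at infinity. -/
noncomputable def nonsing (W : WeierstrassCurve ℤ) (v : HeightOneSpectrum (𝓞 K)) :
    AddSubgroup (base W (v.adicCompletion K)).toAffine.Point :=
  AddSubgroup.closure {P | ∀ x y h, P = Affine.Point.some x y h →
    1 < Valued.v x ∨ Valued.v (W.a₁ * y - (3 * x ^ 2 + 2 * W.a₂ * x + W.a₄)) = 1 ∨
      Valued.v (2 * y + W.a₁ * x + W.a₃) = 1}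

/-- The Tamagawa number `c_v = [E(K_v) : E⁰(K_v)]` of a minimal equation. -/
noncomputable def c (W : WeierstrassCurve ℤ) (v : HeightOneSpectrum (𝓞 K)) : ℕ :=
  (nonsing W v).index

end

section

variable (K : Type) [Field K] [NumberField K]

/-- The product of the Tamagawa numbers. -/
noncomputable def Tam (W : WeierstrassCurve ℤ) : ℕ := ∏ᶠ v : HeightOneSpectrum (𝓞 K), c W v

/-- The order of the torsion subgroup of `W(K)`. -/
noncomputable def torsOrder (W : WeierstrassCurve ℤ) : ℕ :=
  Nat.card (AddCommGroup.torsion (base W K).toAffine.Point)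

/-- The 2-primary part of the Tate-Shafarevich group over `K`. -/
noncomputable abbrev Sha2 (W : WeierstrassCurve ℤ) : AddSubgroup (Sha (base W K)) :=
  AddCommGroup.primaryComponent (Sha (base W K)) 2

/-- `L` is the L-function of the minimal equation `W` over `K`: it is entire and it is given by the
Euler product for `Re s > 3/2`. -/
def IsL (W : WeierstrassCurve ℤ) (L : ℂ → ℂ) : Prop :=
  Differentiable ℂ L ∧ ∀ s : ℂ, 3 / 2 < s.re → HasProd (factor (K := K) W s) (L s)

end

/-- `4 x³ + b₂ x² + 2 b₄ x + b₆ = (2 y + a₁ x + a₃)²` at the points of the curve. -/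
def cubic (W : WeierstrassCurve ℤ) (x : ℝ) : ℝ :=
  4 * x ^ 3 + W.b₂ * x ^ 2 + 2 * W.b₄ * x + W.b₆

/-- The real period `∫_{W(ℝ)} |dx / (2y + a₁x + a₃)|`. -/
noncomputable def realPeriod (W : WeierstrassCurve ℤ) : ℝ :=
  2 * ∫ x in {x : ℝ | 0 < cubic W x}, 1 / √(cubic W x)

/-- The order of the Tate-Shafarevich group predicted by the formula in rank zero for the curve `W` over
a real quadratic field `K` (there are two real places, with the same period), for the value `l` of the
L-function at `s = 1`: `l √|disc K| #W(K)_tors² / (Ω² ∏ c_v)`. -/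
noncomputable def anOrder (K : Type) [Field K] [NumberField K] (W : WeierstrassCurve ℤ) (l : ℂ) : ℂ :=
  l * (Real.sqrt |(discr K : ℝ)| : ℝ) * (torsOrder K W : ℂ) ^ 2 /
    ((realPeriod W : ℂ) ^ 2 * (Tam K W : ℂ))

/-- The 2-part of the strong conjecture of Birch and Swinnerton-Dyer for the curve `W` over a real
quadratic field `K`, in the case that the rank is zero and `Ш[2^∞]` is a vector space of dimension `m`
over the field with two elements: the equation `W` is minimal at all the finite places, `W(K)` is finite,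
`Ш(W/K)[2^∞]` is killed by two and has order `2 ^ m`, `L(W/K, s)` is entire, `L(W/K, 1) ≠ 0`, and the
predicted order of `Ш` is a rational number with 2-adic valuation `m`. -/
def TwoPart (K : Type) [Field K] [NumberField K] (W : WeierstrassCurve ℤ) (m : ℕ) : Prop :=
  (∀ v : HeightOneSpectrum (𝓞 K), MinimalAt W v) ∧ Finite (base W K).toAffine.Point ∧
  (∀ x : Sha2 K W, 2 • x = 0) ∧ Nat.card (Sha2 K W) = 2 ^ m ∧
  {v : HeightOneSpectrum (𝓞 K) | c W v ≠ 1}.Finite ∧ 0 < Tam K W ∧ 0 < torsOrder K W ∧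
  0 < realPeriod W ∧
  ∃ (L : ℂ → ℂ) (z : ℚ), IsL K W L ∧ L 1 ≠ 0 ∧ anOrder K W (L 1) = z ∧
    z ≠ 0 ∧ padicValRat 2 z = m

/-- The modular curve `X_0(15)`. -/
def X15 : WeierstrassCurve ℤ := ⟨1, 1, 1, -10, -10⟩

/-- `K` is the quadratic field `ℚ(√D)`. -/
def IsQuad (D : ℕ) (K : Type) [Field K] [NumberField K] : Prop :=
  finrank ℚ K = 2 ∧ ∃ d : K, d ^ 2 = ((D : ℕ) : K)

/-! ### The class of the fields -/

/-- The class of the discriminants: all the squarefree `D > 1`, `D ≡ 1` or `49` modulo `60`. -/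
def Family (D : ℕ) : Prop := 1 < D ∧ Squarefree D ∧ (D % 60 = 1 ∨ D % 60 = 49)

/-- There is a prime factor `≡ 3` modulo `4`, and one that is not a square modulo `5`. -/
def Mixed (D : ℕ) : Prop := (∃ q : ℕ, q.Prime ∧ q ∣ D ∧ q % 4 = 3) ∧
  ∃ q : ℕ, q.Prime ∧ q ∣ D ∧ (q % 5 = 2 ∨ q % 5 = 3)

/-- `2 k - 4`, where `k` is the number of the prime factors of `D`. -/
def dim (D : ℕ) : ℕ := 2 * D.primeFactors.card - 4

/-- The elementary condition: the only positive divisor `d` of `D` with `(d/5) = 1`, `(d/p) = 1` for all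
primes `p ∣ D/d` and `(-(D/d)/p) = 1` for all primes `p ∣ d` is `d = 1`. -/
def Crit (D : ℕ) : Prop := ∀ d : ℕ, d ∣ D →
  (∀ p : ℕ, p.Prime → p ∣ D → ¬ p ∣ d → jacobiSym d p = 1) →
  (∀ p : ℕ, p.Prime → p ∣ d → jacobiSym (-((D / d : ℕ) : ℤ)) p = 1) →
  jacobiSym d 5 = 1 → d = 1

/-- The statement for all the fields `K = ℚ(√D)` of the class. -/
def Criterion (D : ℕ) (K : Type) [Field K] [NumberField K] : Prop :=
  (∀ v : HeightOneSpectrum (𝓞 K), MinimalAt X15 v) ∧
  {v : HeightOneSpectrum (𝓞 K) | c X15 v ≠ 1}.Finite ∧ 0 < realPeriod X15 ∧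
  Tam K X15 = 64 ∧ (∃ t : ℕ, Odd t ∧ torsOrder K X15 = 8 * t) ∧
  AddGroup.FG (base X15 K).toAffine.Point ∧
  (Mixed D → 2 ^ finrank ℤ (base X15 K).toAffine.Point *
    Nat.card {x : Sha (base X15 K) // 2 • x = 0} = 2 ^ dim D) ∧
  (∃ (L : ℂ → ℂ) (u : ℚ) (y : ℤ), IsL K X15 L ∧ u ≠ 0 ∧ padicValRat 2 u = 0 ∧
    anOrder K X15 (L 1) * 2 ^ 4 = ((u * 2 ^ (2 * D.primeFactors.card) * (y : ℚ) ^ 2 : ℚ) : ℂ) ∧
    (Odd y ↔ Crit D)) ∧
  (Crit D → Mixed D) ∧ (Crit D ↔ 2 ≤ D.primeFactors.card ∧ TwoPart K X15 (dim D))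

/-- The 2-part of the conjecture for `X_0(15)` over `ℚ(√D)`, with `Ш[2^∞]` of dimension `2 k - 4`. -/
def Proved (D : ℕ) : Prop := 2 ≤ D.primeFactors.card ∧
  ∀ (K : Type) [Field K] [NumberField K], IsQuad D K → TwoPart K X15 (dim D)

/-- the number of the `D ≤ X` with `Q D` -/
noncomputable def count (Q : ℕ → Prop) (X : ℕ) : ℕ := ((Finset.Icc 1 X).filter Q).card

/-- `c = ∏_{i ≥ 1} (1 - 2^{-i})` -/
noncomputable def cc : ℝ := ∏' i : ℕ, (1 - (1 / 2 : ℝ) ^ (i + 1))

section proof

open Pool.Agent.R428.N (coords exists_K)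
open Pool.Agent.H757_X15 (WD)
open Pool.Agent.H757_X15.KK (VK Quad t_TOV t_CNT t_TAMK t_MINK t_TORK t_DISC t_LPROD t_CRC sha_rank
  crit_alg val_prod few)

lemma X15_eq : X15 = WD 1 := rfl

lemma fm {D : ℕ} (h : Family D) : Pool.Agent.H757_X15.DD.Fm D := h.2.2

lemma crit_iff (D : ℕ) : Crit D ↔ Pool.Agent.H757_X15.DD.Crit D := Iff.rfl

lemma nsq {D : ℕ} (h : Family D) : ∀ q : ℚ, q ^ 2 ≠ (((D : ℕ) : ℤ) : ℚ) := by
  intro q hq
  have h1 : IsSquare ((D : ℕ) : ℚ) := ⟨q, by rw [← sq, hq, Int.cast_natCast]⟩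
  rw [Rat.isSquare_natCast_iff] at h1
  obtain ⟨m, hm⟩ := h1
  have h2 := h.2.1 m ⟨1, by rw [mul_one]; exact hm⟩
  rw [Nat.isUnit_iff] at h2
  rw [h2] at hm
  have := h.1
  omega

lemma quad {D : ℕ} (h : Family D) {K : Type} [Field K] [NumberField K] (hQ : IsQuad D K) :
    ∃ d : K, Quad (D : ℤ) K d := by
  obtain ⟨h2, d, hd⟩ := hQ
  have hd' : d ^ 2 = (((D : ℕ) : ℤ) : K) := by rw [hd, Int.cast_natCast]
  refine ⟨d, Int.squarefree_natCast.2 h.2.1, ?_, ?_, ?_, hd', coords hd' h2 (nsq h)⟩
  · rcases h.2.2 with h | h <;> omega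
  · rw [Int.natAbs_natCast, show (15 : ℕ) = 3 * 5 from rfl]
    refine Nat.Coprime.mul_right ?_ ?_
    · rw [Nat.coprime_comm, Nat.Prime.coprime_iff_not_dvd Nat.prime_three]
      rcases h.2.2 with h | h <;> omega
    · rw [Nat.coprime_comm, Nat.Prime.coprime_iff_not_dvd Nat.prime_five]
      rcases h.2.2 with h | h <;> omega
  · have := h.1
    omega

/-- two prime factors -/
lemma two_le {D : ℕ} (h : Family D) (hM : Mixed D) : 2 ≤ D.primeFactors.card := by
  obtain ⟨⟨q, hq, hqD, hq4⟩, -⟩ := hM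
  by_contra hlt
  have hmem : q ∈ D.primeFactors := Nat.mem_primeFactors.2 ⟨hq, hqD, h.2.1.ne_zero⟩
  have h1 : D.primeFactors.card = 1 := by
    have := Finset.card_pos.2 ⟨q, hmem⟩
    omega
  obtain ⟨r, hr⟩ := Finset.card_eq_one.1 h1
  have hqr : q = r := by
    rw [hr] at hmem
    exact Finset.mem_singleton.1 hmem
  have h2 := Nat.prod_primeFactors_of_squarefree h.2.1
  rw [hr, Finset.prod_singleton, ← hqr] at h2
  rcases h.2.2 with h | h <;> omega

lemma IsL.unique {K : Type} [Field K] [NumberField K] {W : WeierstrassCurve ℤ} {f g : ℂ → ℂ}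
    (hf : IsL K W f) (hg : IsL K W g) : f = g := by
  have hfa : AnalyticOnNhd ℂ f Set.univ := fun z _ => hf.1.analyticAt z
  have hga : AnalyticOnNhd ℂ g Set.univ := fun z _ => hg.1.analyticAt z
  have heq : f =ᶠ[nhds (2 : ℂ)] g := by
    have hopen : IsOpen {s : ℂ | (3 : ℝ) / 2 < s.re} := isOpen_lt continuous_const Complex.continuous_re
    filter_upwards [hopen.mem_nhds (show (3 : ℝ) / 2 < (2 : ℂ).re by norm_num)] with s hs
    exact (hf.2 s hs).unique (hg.2 s hs)
  exact hfa.eq_of_eventuallyEq hga heq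

lemma val_pow (u : ℚ) (hu : u ≠ 0) (h : padicValRat 2 u = 0) (m : ℕ) {y : ℤ} (hy : y ≠ 0) :
    padicValRat 2 (u * 2 ^ m * (y : ℚ) ^ 2) = m + 2 * padicValInt 2 y := by
  have : Fact (Nat.Prime 2) := ⟨Nat.prime_two⟩
  have hyq : (y : ℚ) ≠ 0 := by exact_mod_cast hy
  have h2 : (2 : ℚ) ^ m ≠ 0 := pow_ne_zero m two_ne_zero
  rw [padicValRat.mul (mul_ne_zero hu h2) (pow_ne_zero 2 hyq), padicValRat.mul hu h2, h,
    padicValRat.pow, padicValRat.pow, padicValRat.of_int]
  have : padicValRat 2 (2 : ℚ) = 1 := by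
    have := padicValRat.self (p := 2) (by norm_num)
    exact_mod_cast this
  rw [this]
  push_cast
  ring

/-- the criterion -/
theorem criterion {D : ℕ} (h : Family D) (K : Type) [Field K] [NumberField K] (hQ : IsQuad D K) :
    Criterion D K := by
  obtain ⟨d, hq⟩ := quad h hQ
  have h1 : D ≠ 1 := by have := h.1; omega
  have hpos : (0 : ℤ) < D := by have := h.1; omega
  have hdisc : discr K = (D : ℤ) := t_DISC (D : ℤ) K d hq
  obtain ⟨hcf, htam⟩ := t_TAMK (D : ℤ) K d hq (by rcases h.2.2 with h | h <;> omega)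
    (by rcases h.2.2 with h | h <;> omega)
  obtain ⟨k', hk', htor⟩ := t_TORK (D : ℤ) K d hq hpos
  have hmin : ∀ v : HeightOneSpectrum (𝓞 K), MinimalAt X15 v := t_MINK (D : ℤ) K d hq
  have htam' : Tam K X15 = 64 := htam
  have htor' : torsOrder K X15 = 8 * k' := htor
  obtain ⟨⟨φ⟩, ⟨ψ⟩⟩ : Nonempty ((base X15 K).toAffine.Point ≃+ (VK K).toAffine.Point) ∧
      Nonempty (Sha (base X15 K) ≃+ Sha (VK K)) := t_TOV K
  have hfg : AddGroup.FG (base X15 K).toAffine.Point := by
    haveI := (t_CNT K).1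
    exact AddGroup.fg_of_surjective (f := φ.symm.toAddMonoidHom) φ.symm.surjective
  have hrk : finrank ℤ (base X15 K).toAffine.Point = finrank ℤ (VK K).toAffine.Point :=
    φ.toIntLinearEquiv.finrank_eq
  have hS : Nat.card {x : Sha (base X15 K) // 2 • x = 0} =
      Nat.card {x : Sha (VK K) // x + x = 0} := by
    refine Nat.card_congr (ψ.toEquiv.subtypeEquiv fun x => ?_)
    show 2 • x = 0 ↔ ψ x + ψ x = 0
    rw [← two_nsmul, ← map_nsmul, EmbeddingLike.map_eq_zero_iff]
  have hrank : Mixed D → 2 ^ finrank ℤ (base X15 K).toAffine.Point *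
      Nat.card {x : Sha (base X15 K) // 2 • x = 0} = 2 ^ dim D := by
    intro hM
    have h3 := sha_rank (D := D) ⟨h.2.1, h.2.2, hM.1, hM.2⟩ hq
    have h4 := two_le h hM
    rw [hrk, hS]
    have e : 2 * D.primeFactors.card - 2 = dim D + 2 := by
      unfold dim
      omega
    rw [e, pow_add] at h3
    exact Nat.eq_of_mul_eq_mul_right (by norm_num : 0 < 2 ^ 2) h3
  have hcm : Crit D → Mixed D := fun hc => by
    obtain ⟨-, -, h3, h4⟩ := t_CRC D h.2.1 h.2.2 h1 hc
    exact ⟨h3, h4⟩
  obtain ⟨Op, hOp, hper, f1, fD, hf1, hfD, y, u, hu0, hu, hy, hyne, hval⟩ :=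
    val_prod h.2.1 h.2.2 h1
  have hper' : realPeriod X15 = 2 * Op := hper
  have hIsL : IsL K X15 (fun s => f1 s * fD s) := by
    refine ⟨hf1.1.mul hfD.1, fun s hs => ?_⟩
    exact t_LPROD (D : ℤ) K d hq s _ _ hs (hf1.2 s hs) (hfD.2 s hs)
  obtain ⟨u', hu', hu0', huv'⟩ : ∃ u' : ℚ, u' = u * (k' * k') ∧ u' ≠ 0 ∧ padicValRat 2 u' = 0 := by
    have h5 := Pool.Agent.R428.N.unit_mul ⟨hu0, hu⟩
      (Pool.Agent.R428.N.unit_mul (Pool.Agent.R428.N.unit_nat hk') (Pool.Agent.R428.N.unit_nat hk'))
    exact ⟨_, rfl, h5.1, h5.2⟩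
  have hper0 : 0 < realPeriod X15 := by rw [hper']; positivity
  have han : anOrder K X15 (f1 1 * fD 1) * 2 ^ 4 =
      ((u' * 2 ^ (2 * D.primeFactors.card) * (y : ℚ) ^ 2 : ℚ) : ℂ) := by
    unfold anOrder
    rw [hper', hdisc, htor', htam', hval, hu']
    have o1 : (Op : ℂ) ≠ 0 := by exact_mod_cast hOp.ne'
    push_cast
    field_simp
    ring
  have hyd : Odd y ↔ Crit D := hy
  refine ⟨hmin, hcf, hper0, htam', ⟨k', hk', htor'⟩, hfg, hrank,
    ⟨_, u', y, hIsL, hu0', huv', han, hyd⟩, hcm, ?_, ?_⟩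
  · intro hc
    have hM := hcm hc
    have hk2 := two_le h hM
    have hyo := hyd.2 hc
    obtain ⟨hfV, hexp⟩ := crit_alg h.2.1 h.2.2 h1 hc hq
    have hy0 : y ≠ 0 := by
      rintro rfl
      exact absurd hyo (by decide)
    have hfin : Finite (base X15 K).toAffine.Point := Finite.of_equiv _ φ.symm.toEquiv
    have hcard : Nat.card {x : Sha (base X15 K) // 2 • x = 0} = 2 ^ dim D := by
      have h3 := hrank hM
      rw [Pool.Agent.H757_X15.KK.finrank_zero_of_finite hfin, pow_zero, one_mul] at h3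
      exact h3
    have hmem : ∀ x : Sha (base X15 K), x ∈ Sha2 K X15 ↔ 2 • x = 0 := by
      intro x
      constructor
      · rintro ⟨n, hn⟩
        have h3 := hexp (ψ x) n (by rw [← map_nsmul, hn, map_zero])
        rw [← two_nsmul, ← map_nsmul, EmbeddingLike.map_eq_zero_iff] at h3
        exact h3
      · intro hx
        exact ⟨1, by rw [pow_one]; exact hx⟩
    have hS2 : Nat.card (Sha2 K X15) = 2 ^ dim D := by
      rw [← hcard]
      exact Nat.card_congr (Equiv.subtypeEquivRight hmem)
    have hyv : padicValInt 2 y = 0 := by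
      refine padicValInt.eq_zero_of_not_dvd ?_
      intro hdv
      have h5 := Int.odd_iff.1 hyo
      omega
    have han2 : anOrder K X15 (f1 1 * fD 1) = ((u' * 2 ^ dim D * (y : ℚ) ^ 2 : ℚ) : ℂ) := by
      have e : 2 * D.primeFactors.card = dim D + 4 := by
        unfold dim
        omega
      have h3 := han
      rw [e, pow_add] at h3
      have h4 : (2 : ℂ) ^ 4 ≠ 0 := pow_ne_zero _ two_ne_zero
      refine mul_right_cancel₀ h4 (h3.trans ?_)
      push_cast
      ring
    refine ⟨hk2, hmin, hfin, fun x => Subtype.ext ((hmem x.1).1 x.2), hS2, hcf, ?_, ?_, hper0,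
      fun s => f1 s * fD s, u' * 2 ^ dim D * (y : ℚ) ^ 2, hIsL, hyne hy0, han2, ?_, ?_⟩
    · rw [htam']
      norm_num
    · rw [htor']
      exact Nat.mul_pos (by norm_num) hk'.pos
    · exact mul_ne_zero (mul_ne_zero hu0' (pow_ne_zero _ two_ne_zero))
        (pow_ne_zero 2 (by exact_mod_cast hy0))
    · rw [val_pow u' hu0' huv' _ hy0, hyv]
      norm_num
  · rintro ⟨hk2, -, -, -, -, -, -, -, -, L', z, hL', -, hz, hz0, hzv⟩
    rw [← hyd]
    have e1 := han
    rw [← show L' 1 = f1 1 * fD 1 from congrFun (IsL.unique hL' hIsL) 1, hz] at e1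
    have e2 : z * 2 ^ 4 = u' * 2 ^ (2 * D.primeFactors.card) * (y : ℚ) ^ 2 := by
      exact_mod_cast e1
    have hy0 : y ≠ 0 := by
      rintro rfl
      apply hz0
      have : z * 2 ^ 4 = 0 := by rw [e2]; simp
      have h4 : (2 : ℚ) ^ 4 ≠ 0 := pow_ne_zero _ two_ne_zero
      exact (mul_eq_zero.1 this).resolve_right h4
    have e3 := val_pow u' hu0' huv' (2 * D.primeFactors.card) hy0
    have : Fact (Nat.Prime 2) := ⟨Nat.prime_two⟩
    have e5 : padicValRat 2 (2 : ℚ) = 1 := by
      have := padicValRat.self (p := 2) (by norm_num)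
      exact_mod_cast this
    rw [← e2, padicValRat.mul hz0 (pow_ne_zero _ two_ne_zero), hzv, padicValRat.pow, e5] at e3
    have e4 : padicValInt 2 y = 0 := by
      have h6 : ((dim D : ℕ) : ℤ) + 4 = ((2 * D.primeFactors.card : ℕ) : ℤ) := by
        unfold dim
        push_cast
        omega
      push_cast at e3 h6
      have : (2 : ℤ) * (padicValInt 2 y : ℤ) = 0 := by linarith
      have h7 : (padicValInt 2 y : ℤ) = 0 := by linarith
      exact_mod_cast h7
    rw [← Int.not_even_iff_odd]
    intro he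
    have h8 := (padicValInt_dvd_iff (p := 2) 1 y).1 (by
      rw [Nat.cast_ofNat, pow_one]; exact he.two_dvd)
    rcases h8 with h8 | h8
    · exact hy0 h8
    · rw [e4] at h8
      omega

lemma proved_iff {D : ℕ} (h : Family D) : Proved D ↔ Crit D := by
  constructor
  · rintro ⟨hk, hP⟩
    obtain ⟨K, i1, i2, d, hd, h2⟩ := exists_K (D : ℤ) (nsq h)
    have hQ : IsQuad D K := ⟨h2, d, by rw [hd, Int.cast_natCast]⟩
    exact (criterion h K hQ).2.2.2.2.2.2.2.2.2.2 ⟨hk, hP K hQ⟩
  · intro hc
    refine ⟨two_le h ?_, fun K _ _ hQ => ((criterion h K hQ).2.2.2.2.2.2.2.2.2.1 hc).2⟩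
    obtain ⟨-, -, h3, h4⟩ := t_CRC D h.2.1 h.2.2 (by have := h.1; omega) hc
    exact ⟨h3, h4⟩

lemma count_eq (Q : ℕ → Prop) [i : DecidablePred Q] (X : ℕ) :
    count Q X = ((Finset.Icc 1 X).filter Q).card := by
  unfold count
  congr

/-- the counts and the densities -/
theorem density (m : ℕ) :
    Tendsto (fun X : ℕ => (count (fun D => Family D ∧ Proved D ∧ m ≤ dim D) X : ℝ) /
      (count Family X : ℝ)) atTop (𝓝 cc) ∧
    Tendsto (fun X : ℕ => (count Family X : ℝ) / X) atTop (𝓝 (5 / (16 * Real.pi ^ 2))) := by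
  set A : ℕ → ℝ := fun X => (((Finset.Icc 1 X).filter fun D => Squarefree D ∧
    Pool.Agent.H757_X15.DD.Fm D ∧ Pool.Agent.H757_X15.DD.Crit D).card : ℝ) with hA
  set B : ℕ → ℝ := fun X => (((Finset.Icc 1 X).filter fun D => Squarefree D ∧
    Pool.Agent.H757_X15.DD.Fm D).card : ℝ) with hB
  set F : ℕ → ℝ := fun X => (((Finset.Icc 1 X).filter fun D => Squarefree D ∧
    Pool.Agent.H757_X15.DD.Fm D ∧ D.primeFactors.card ≤ m + 2).card : ℝ) with hF
  have hAB : Tendsto (fun X => A X / B X) atTop (𝓝 cc) := Pool.Agent.H757_X15.DD.t_DEN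
  have hBX : Tendsto (fun X : ℕ => B X / X) atTop (𝓝 (5 / (16 * Real.pi ^ 2))) :=
    Pool.Agent.H757_X15.EE.t_CLASS
  have hFX : Tendsto (fun X : ℕ => F X / X) atTop (𝓝 0) := few (m + 2)
  have hX : Tendsto (fun X : ℕ => (X : ℝ)) atTop atTop := tendsto_natCast_atTop_atTop
  have hpos : (0 : ℝ) < 5 / (16 * Real.pi ^ 2) := by positivity
  have hBt : Tendsto B atTop atTop := by
    have h1 : Tendsto (fun X : ℕ => B X / X * X) atTop atTop := hBX.pos_mul_atTop hpos hX
    refine h1.congr' ?_
    filter_upwards [eventually_ge_atTop 1] with X h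
    have : (X : ℝ) ≠ 0 := by positivity
    field_simp
  have hinv : Tendsto (fun X => (B X)⁻¹) atTop (𝓝 0) := hBt.inv_tendsto_atTop
  have hFB : Tendsto (fun X => F X / B X) atTop (𝓝 0) := by
    have h1 : Tendsto (fun X : ℕ => (F X / X) / (B X / X)) atTop
        (𝓝 (0 / (5 / (16 * Real.pi ^ 2)))) := hFX.div hBX hpos.ne'
    rw [zero_div] at h1
    refine h1.congr' ?_
    filter_upwards [eventually_ge_atTop 1] with X h
    have : (X : ℝ) ≠ 0 := by positivity
    field_simp
  have eB : ∀ X : ℕ, 1 ≤ X → (count Family X : ℝ) = B X - 1 := by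
    intro X h
    have e : ((Finset.Icc 1 X).filter fun D => Squarefree D ∧ Pool.Agent.H757_X15.DD.Fm D) =
        insert 1 ((Finset.Icc 1 X).filter Family) := by
      ext D
      simp only [Finset.mem_filter, Finset.mem_insert, Finset.mem_Icc]
      unfold Family Pool.Agent.H757_X15.DD.Fm
      constructor
      · rintro ⟨h1, h2, h3⟩
        by_cases hD : D = 1
        · exact Or.inl hD
        · exact Or.inr ⟨h1, by omega, h2, h3⟩
      · rintro (rfl | ⟨h1, -, h2, h3⟩)
        · exact ⟨⟨le_refl 1, h⟩, squarefree_one, Or.inl (by norm_num)⟩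
        · exact ⟨h1, h2, h3⟩
    have e2 : B X = ((count Family X + 1 : ℕ) : ℝ) := by
      show (((Finset.Icc 1 X).filter fun D => Squarefree D ∧
        Pool.Agent.H757_X15.DD.Fm D).card : ℝ) = _
      rw [e, Finset.card_insert_of_notMem]
      · unfold count
        congr
      · intro h1
        have := (Finset.mem_filter.1 h1).2.1
        omega
    rw [e2]
    push_cast
    ring
  have hle : ∀ X : ℕ, (count (fun D => Family D ∧ Proved D ∧ m ≤ dim D) X : ℝ) ≤ A X := by
    intro X
    show (count (fun D => Family D ∧ Proved D ∧ m ≤ dim D) X : ℝ) ≤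
      (((Finset.Icc 1 X).filter fun D => Squarefree D ∧
    Pool.Agent.H757_X15.DD.Fm D ∧ Pool.Agent.H757_X15.DD.Crit D).card : ℝ)
    rw [count_eq]
    norm_cast
    refine Finset.card_le_card fun D hD => ?_
    obtain ⟨h1, h2, h3, h4⟩ := Finset.mem_filter.1 hD
    exact Finset.mem_filter.2 ⟨h1, h2.2.1, h2.2.2, (proved_iff h2).1 h3⟩
  have hge : ∀ X : ℕ, A X - F X - 1 ≤
      (count (fun D => Family D ∧ Proved D ∧ m ≤ dim D) X : ℝ) := by
    intro X
    have hsub : ((Finset.Icc 1 X).filter fun D => Squarefree D ∧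
        Pool.Agent.H757_X15.DD.Fm D ∧ Pool.Agent.H757_X15.DD.Crit D) ⊆
        insert 1 (((Finset.Icc 1 X).filter fun D => Squarefree D ∧
          Pool.Agent.H757_X15.DD.Fm D ∧ D.primeFactors.card ≤ m + 2) ∪
        (Finset.Icc 1 X).filter fun D => Family D ∧ Proved D ∧ m ≤ dim D) := by
      intro D hD
      obtain ⟨h1, h2, h3, h4⟩ := Finset.mem_filter.1 hD
      rw [Finset.mem_insert, Finset.mem_union, Finset.mem_filter, Finset.mem_filter]
      by_cases hD1 : D = 1
      · exact Or.inl hD1
      · have hI := (Finset.mem_Icc.1 h1).1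
        have hFam : Family D := ⟨by omega, h2, h3⟩
        by_cases hs : D.primeFactors.card ≤ m + 2
        · exact Or.inr (Or.inl ⟨h1, h2, h3, hs⟩)
        · refine Or.inr (Or.inr ⟨h1, hFam, (proved_iff hFam).2 h4, ?_⟩)
          unfold dim
          omega
    have h1 := Finset.card_le_card hsub
    have h2 := h1.trans (Finset.card_insert_le _ _)
    have h3 := h2.trans (Nat.add_le_add_right (Finset.card_union_le _ _) 1)
    have h4 : A X ≤ F X + (count (fun D => Family D ∧ Proved D ∧ m ≤ dim D) X : ℝ) + 1 := by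
      show (((Finset.Icc 1 X).filter fun D => Squarefree D ∧
        Pool.Agent.H757_X15.DD.Fm D ∧ Pool.Agent.H757_X15.DD.Crit D).card : ℝ) ≤
        (((Finset.Icc 1 X).filter fun D => Squarefree D ∧
          Pool.Agent.H757_X15.DD.Fm D ∧ D.primeFactors.card ≤ m + 2).card : ℝ) + _ + 1
      rw [count_eq]
      exact_mod_cast h3
    linarith
  refine ⟨?_, ?_⟩
  · have k1 : Tendsto (fun X => (A X / B X) / (1 - (B X)⁻¹)) atTop (𝓝 (cc / (1 - 0))) :=
      hAB.div (tendsto_const_nhds.sub hinv) (by norm_num)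
    have k2 : Tendsto (fun X => (A X / B X - F X / B X - (B X)⁻¹) / (1 - (B X)⁻¹)) atTop
        (𝓝 ((cc - 0 - 0) / (1 - 0))) :=
      ((hAB.sub hFB).sub hinv).div (tendsto_const_nhds.sub hinv) (by norm_num)
    rw [sub_zero, div_one] at k1
    rw [sub_zero, sub_zero, sub_zero, div_one] at k2
    refine tendsto_of_tendsto_of_tendsto_of_le_of_le' k2 k1 ?_ ?_
    · filter_upwards [eventually_ge_atTop 1, hBt.eventually_gt_atTop 1] with X h h2
      rw [eB X h]
      have h3 : 0 < B X := by linarith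
      have h4 : 0 < B X - 1 := by linarith
      have e : (A X / B X - F X / B X - (B X)⁻¹) / (1 - (B X)⁻¹) =
          (A X - F X - 1) / (B X - 1) := by
        have h5 : (1 - (B X)⁻¹) ≠ 0 := by
          have : (B X)⁻¹ < 1 := inv_lt_one_of_one_lt₀ h2
          linarith
        field_simp
      rw [e]
      exact div_le_div_of_nonneg_right (hge X) h4.le
    · filter_upwards [eventually_ge_atTop 1, hBt.eventually_gt_atTop 1] with X h h2
      rw [eB X h]
      have h3 : 0 < B X := by linarith
      have h4 : 0 < B X - 1 := by linarith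
      have e : (A X / B X) / (1 - (B X)⁻¹) = A X / (B X - 1) := by
        have h5 : (1 - (B X)⁻¹) ≠ 0 := by
          have : (B X)⁻¹ < 1 := inv_lt_one_of_one_lt₀ h2
          linarith
        field_simp
      rw [e]
      exact div_le_div_of_nonneg_right (hle X) h4.le
  · have h1 : Tendsto (fun X : ℕ => B X / X - 1 / (X : ℝ)) atTop
        (𝓝 (5 / (16 * Real.pi ^ 2) - 0)) := by
      refine hBX.sub ?_
      simpa using tendsto_one_div_atTop_nhds_zero_nat (𝕜 := ℝ)
    rw [sub_zero] at h1
    refine h1.congr' ?_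
    filter_upwards [eventually_ge_atTop 1] with X h
    rw [eB X h]
    ring

end proof

/-- **Main theorem.** The statement `Criterion D K` holds for all the real quadratic fields `K = ℚ(√D)`,
`D ≡ 1` or `49` modulo `60`. For every `m` the proportion of the `D` of the class such that
`2 k - 4 ≥ m` and the 2-part of the conjecture `TwoPart` holds for `X_0(15)` over `ℚ(√D)`, with
`Ш[2^∞]` of dimension `2 k - 4` over the field with two elements, is exactly `0.2887…`, and the class
has the density `5 / (16 π²)`. -/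
theorem result :
    (∀ D : ℕ, Family D → ∀ (K : Type) [Field K] [NumberField K], IsQuad D K → Criterion D K) ∧
    (∀ m : ℕ, Tendsto (fun X : ℕ => (count (fun D => Family D ∧ Proved D ∧ m ≤ dim D) X : ℝ) /
      (count Family X : ℝ)) atTop (𝓝 cc)) ∧
    (0.2887 < cc ∧ cc < 0.2888) ∧
    Tendsto (fun X : ℕ => (count Family X : ℝ) / X) atTop (𝓝 (5 / (16 * Real.pi ^ 2))) :=
  ⟨fun _ h K _ _ hQ => criterion h K hQ, fun m => (density m).1,
    Pool.Agent.H757_X15.DD.t_LA1.2.2.2, (density 0).2⟩

end Pool.Agent.Results.MP_9ab903_nt.TwoPartX15Real
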